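import Pool.Agent.CFP.Main
import Pool.Agent.CFP.Upp
import Pool.Agent.CFP.TruA
import Pool.Agent.CFP.TruB

/-!
# MP_1ff74e_co: the exact worst factor of Conway's slicing of a convex body

Let `K` be a convex body in three-space of width `w` and inradius `r`, `n ≥ 2`, `S₀` an equally
spaced slicing attached to a minimal-width pair of `K` and `S` any admissible slicing of `K` into
`n` pieces.  Then `r(S₀) ≤ ((n - 1 + w/(2r))/n) r(S) ≤ ((n - 1 + √3)/n) r(S)`.  The constant
`(n - 1 + √3)/n` is best possible for every `n ≥ 2`, even when `S₀` is the best one, and for `n ≥ 3`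
it is attained by the regular tetrahedron.  Definitions: `Pool/Agent/CFP/Defs.lean`; paper proof:
`Pool/Agent/CFP/St.lean` and `St2.lean`.
-/

namespace Pool.Agent.Results.MP_1ff74e_co.WorstFactor

open FriedPotato

theorem result :
    (∀ K : Set E3, IsBody K → ∀ n : ℕ, 2 ≤ n →
      (∃ u : E3, IsMinDir K u) ∧
      ∀ u : E3, IsMinDir K u →
        Slicing K (equalSlices K u n) ∧ (equalSlices K u n).length = n ∧
        ∀ L : List (Set E3), Slicing K L → L.length = n →
          rMax (equalSlices K u n) ≤ ((n : ℝ) - 1 + width K / (2 * inradius K)) / n * rMax L ∧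
          rMax (equalSlices K u n) ≤ ((n : ℝ) - 1 + √3) / n * rMax L) ∧
    (∀ n : ℕ, 2 ≤ n → ∀ c : ℝ, c < ((n : ℝ) - 1 + √3) / n →
      ∃ K : Set E3, IsBody K ∧ ∃ L : List (Set E3), Slicing K L ∧ L.length = n ∧
        ∀ u : E3, IsMinDir K u → c * rMax L < rMax (equalSlices K u n)) ∧
    (IsBody tet ∧ ∀ n : ℕ, 3 ≤ n → ∃ L : List (Set E3), Slicing tet L ∧ L.length = n ∧
      ∀ u : E3, IsMinDir tet u →
        rMax (equalSlices tet u n) = ((n : ℝ) - 1 + √3) / n * rMax L) := by
  refine ⟨fun K hK n hn => ⟨(Bas K hK).1, fun u hu => ?_⟩, ?_, TetA.1, fun n hn => ?_⟩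
  · obtain ⟨h1, h2⟩ := Adm Bas K hK n hn u hu
    exact ⟨h1, h2, fun L hL hLn => ⟨Main_factor (Upp Bas) K hK n hn u hu L hL hLn,
      Main_factor' (Upp Bas) K hK n hn u hu L hL hLn⟩⟩
  · exact fun n hn c hc => Main_all (Upp Bas) (TruB TruA) TruA n hn c hc
  · obtain ⟨L, hL, hLn, _, h⟩ := Main_tet (Upp Bas) n hn
    exact ⟨L, hL, hLn, fun u hu => (h u hu).2⟩

end Pool.Agent.Results.MP_1ff74e_co.WorstFactor
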